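import Pool.Agent.Helper55.HM.Stems

/-!
# Project HM, module D2: merging two conditions with equal stems
-/

set_option autoImplicit false
set_option linter.unusedSectionVars false

namespace Pool.Agent.Helper33.HM

universe u v

/-- the number of entries -/
def h59_len {I : Type u} [LinearOrder I] : Raw I → ℕ
  | .one => 0
  | .cons p _ _ _ _ _ => h59_len p + 1

namespace Cond

variable {I : Type u} [LinearOrder I] [WellFoundedLT I]

theorem h59_cases (p : Cond I) : p = one ∨ ∃ (p1 : Cond I) (i : I) (hp : p1.lt i) (s : List ℕ)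
    (m : ℕ) (f : ℕ → ℕ → ℕ → Cond I) (hf : ∀ l n k, (f l n k).lt i) (v : ℕ → ℕ → ℕ → ℕ),
    p = cons p1 i hp s m f hf v := by
  obtain ⟨p, hp⟩ := p
  cases p with
  | one => exact Or.inl rfl
  | cons p1 i s m f v =>
    obtain ⟨h1, h2, h3⟩ := hp
    exact Or.inr ⟨⟨p1, h1⟩, i, h2, s, m, fun l n k => ⟨f l n k, (h3 l n k).1⟩,
      fun l n k => (h3 l n k).2, v, rfl⟩

theorem h59_le_one (q : Cond I) : q ≤ one := by
  rw [le_iff]
  intro i q' t m' g w he
  exact he.elim

/-- adding the same last entry -/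
theorem h59_cons_le_cons {r p : Cond I} {i : I} {hr : r.lt i} {hp : p.lt i} {s : List ℕ}
    {m M : ℕ} {f F : ℕ → ℕ → ℕ → Cond I} {hf : ∀ l n k, (f l n k).lt i}
    {hF : ∀ l n k, (F l n k).lt i} {v V : ℕ → ℕ → ℕ → ℕ} (h : r ≤ p)
    (hn : ∀ l < m, ∃ l' < M, F l' = f l ∧ V l' = v l) :
    cons r i hr s M F hF V ≤ cons p i hp s m f hf v := by
  rw [le_cons_iff]
  exact ⟨h55_cons_le.trans h, r, s, M, F, V, ent_cons.2 (Or.inl ⟨rfl, rfl, rfl, rfl, rfl, rfl⟩),
    List.prefix_rfl, hn, fun n h1 h2 => absurd h1 (not_lt.2 h2)⟩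

theorem h59_common (n : ℕ) : ∀ p q : Cond I, h59_len p.1 + h59_len q.1 ≤ n →
    (∀ i p' s m f v q' t m' g w, Ent p i p' s m f v → Ent q i q' t m' g w → s = t) →
    ∃ r : Cond I, r ≤ p ∧ r ≤ q ∧ ∀ i, p.lt i → q.lt i → r.lt i := by
  induction n with
  | zero =>
    intro p q hn _
    rcases h59_cases p with rfl | ⟨p1, i, hp, s, m, f, hf, v, rfl⟩
    · exact ⟨q, h59_le_one q, le_rfl, fun _ _ h => h⟩
    · exfalso
      have : h59_len (cons p1 i hp s m f hf v).1 = h59_len p1.1 + 1 := rfl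
      omega
  | succ n ih =>
    intro p q hn h
    rcases h59_cases p with rfl | ⟨p1, i, hp, s, m, f, hf, v, rfl⟩
    · exact ⟨q, h59_le_one q, le_rfl, fun _ _ h => h⟩
    rcases h59_cases q with rfl | ⟨q1, j, hq, t, m', g, hg, w, rfl⟩
    · exact ⟨_, le_rfl, h59_le_one _, fun _ h _ => h⟩
    have e1 : h59_len (cons p1 i hp s m f hf v).1 = h59_len p1.1 + 1 := rfl
    have e2 : h59_len (cons q1 j hq t m' g hg w).1 = h59_len q1.1 + 1 := rfl
    rcases lt_trichotomy i j with hij | rfl | hij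
    · -- the last entry is the one of `q`
      obtain ⟨r, hr1, hr2, hr3⟩ := ih (cons p1 i hp s m f hf v) q1 (by omega)
        (fun k p' s' M f' v' q' t' M' g' w' h1 h2 =>
          h k p' s' M f' v' q' t' M' g' w' h1 (ent_cons.2 (Or.inr h2)))
      have hrj : r.lt j := hr3 j (lt_cons.2 hij) hq
      refine ⟨cons r j hrj t m' g hg w, h55_cons_le.trans hr1,
        h59_cons_le_cons hr2 fun l hl => ⟨l, hl, rfl, rfl⟩, fun k _ hk => ?_⟩
      exact lt_cons.2 (lt_cons.1 hk)
    · -- common index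
      have hst : s = t := h i p1 s m f v q1 t m' g w
        (ent_cons.2 (Or.inl ⟨rfl, rfl, rfl, rfl, rfl, rfl⟩))
        (ent_cons.2 (Or.inl ⟨rfl, rfl, rfl, rfl, rfl, rfl⟩))
      subst hst
      obtain ⟨r, hr1, hr2, hr3⟩ := ih p1 q1 (by omega)
        (fun k p' s' M f' v' q' t' M' g' w' h1 h2 =>
          h k p' s' M f' v' q' t' M' g' w' (ent_cons.2 (Or.inr h1)) (ent_cons.2 (Or.inr h2)))
      have hri : r.lt i := hr3 i hp hq
      refine ⟨cons r i hri s (m + m') (fun l => if l < m then f l else g (l - m)) ?_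
        (fun l => if l < m then v l else w (l - m)), h59_cons_le_cons hr1 ?_,
        h59_cons_le_cons hr2 ?_, fun k hk _ => lt_cons.2 (lt_cons.1 hk)⟩
      · intro l n k
        by_cases hl : l < m
        · simp only [if_pos hl]
          exact hf l n k
        · simp only [if_neg hl]
          exact hg (l - m) n k
      · intro l hl
        exact ⟨l, by omega, by simp [hl], by simp [hl]⟩
      · intro l hl
        refine ⟨m + l, by omega, ?_, ?_⟩
        · simp
        · simp
    · -- the last entry is the one of `p`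
      obtain ⟨r, hr1, hr2, hr3⟩ := ih p1 (cons q1 j hq t m' g hg w) (by omega)
        (fun k p' s' M f' v' q' t' M' g' w' h1 h2 =>
          h k p' s' M f' v' q' t' M' g' w' (ent_cons.2 (Or.inr h1)) h2)
      have hri : r.lt i := hr3 i hp (lt_cons.2 hij)
      refine ⟨cons r i hri s m f hf v, h59_cons_le_cons hr1 fun l hl => ⟨l, hl, rfl, rfl⟩,
        h55_cons_le.trans hr2, fun k hk _ => ?_⟩
      exact lt_cons.2 (lt_cons.1 hk)

theorem exists_common {p q : Cond I} (h : ∀ i p' s m f v q' t m' g w, Ent p i p' s m f v →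
    Ent q i q' t m' g w → s = t) : ∃ r : Cond I, r ≤ p ∧ r ≤ q := by
  obtain ⟨r, h1, h2, _⟩ := h59_common _ p q le_rfl h
  exact ⟨r, h1, h2⟩

end Cond

end Pool.Agent.Helper33.HM
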